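import Pool.Agent.W289.ZS.Stm

/-! ZS-G4: from reachability to index sets. -/

set_option autoImplicit false

namespace Pool.Agent.W637.ZS

open Finset W289.ZS

universe u

lemma good_singleton {n : ℕ} {G : Type u} [Group G] (g : Fin n → G) (k : Fin n) :
    Good g {k} (g k) := by
  refine ⟨singleton_nonempty k, ⟨[k], by simp, by simp, ?_⟩, ?_⟩
  · simp
  · simp

lemma good_congr {n : ℕ} {G : Type u} [Group G] {g : Fin n → G} {K : Finset (Fin n)} {a b : G}
    (h : Subgroup.zpowers a = Subgroup.zpowers b) (hK : Good g K b) : Good g K a := by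
  obtain ⟨h1, ⟨l, h2, h3, h4⟩, h5⟩ := hK
  have ho : orderOf a = orderOf b := by
    rw [← Nat.card_zpowers, ← Nat.card_zpowers, h]
  exact ⟨h1, ⟨l, h2, h3, h ▸ h4⟩, by rw [ho]; exact h5⟩

lemma start {G : Type u} [Group G] [Fintype G] [DecidableEq (Subgroup G)] {n : ℕ}
    (g : Fin n → G) (s : (Ix G → Subgroup G) → ℕ)
    (hs : ∀ v, s v = (univ.filter (fun k : Fin n => tau G (g k) = v)).card) :
    Realize g s := by
  refine ⟨fun v => (univ.filter (fun k : Fin n => tau G (g k) = v)).image (fun k => {k}),
    ?_, ?_, ?_⟩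
  · intro v
    rw [card_image_of_injective _ (singleton_injective), hs v]
  · intro v K hK
    obtain ⟨k, hk, rfl⟩ := mem_image.mp hK
    exact ⟨g k, (mem_filter.mp hk).2, good_singleton g k⟩
  · intro v w K hK L hL h
    obtain ⟨k, hk, rfl⟩ := mem_image.mp hK
    obtain ⟨l, hl, rfl⟩ := mem_image.mp hL
    rw [disjoint_singleton]
    rintro rfl
    have h1 := (mem_filter.mp hk).2
    have h2 := (mem_filter.mp hl).2
    rcases h with h | h
    · exact h (h1.symm.trans h2)
    · exact h rfl

lemma step1 (hT : TaskTau.{u}) (hM : TaskMove.{u}) {G : Type u} [Group G] [Fintype G]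
    [DecidableEq (Subgroup G)] {n : ℕ}
    (g : Fin n → G) (r : (Ix G → Subgroup G) → ℕ) (v : Ix G → Subgroup G) (i : Ix G)
    (hd : 0 < (DG G).dep i (v i))
    (h : Realize g (r + Pi.single v ((DG G).p i))) :
    Realize g (r + Pi.single ((DG G).down i v) 1) := by
  classical
  obtain ⟨t1, t2, t3, t4, t5⟩ := hT G
  obtain ⟨F, hF1, hF2, hF3⟩ := h
  have hp : ((DG G).p i).Prime := Nat.prime_of_mem_primeFactors i.2
  set p := (DG G).p i with hpdef
  have hcv : r v + p ≤ (F v).card := by
    have := hF1 v
    simpa using this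
  obtain ⟨F0, hF0s, hF0c⟩ := exists_subset_card_eq (s := F v) (n := p) (by omega)
  have hne : F0.Nonempty := by
    rw [← card_pos, hF0c]; exact hp.pos
  obtain ⟨K0, hK0⟩ := hne
  obtain ⟨a, hav, hga⟩ := hF2 v K0 (hF0s hK0)
  have hgood : ∀ K ∈ F0, Good g K a := by
    intro K hK
    obtain ⟨b, hbv, hgb⟩ := hF2 v K (hF0s hK)
    exact good_congr (t2 a b (hav.trans hbv.symm)) hgb
  have hdvd : p ∣ orderOf a := by
    have h5 := t5 a i
    rw [hav] at h5
    rw [h5] at hd
    exact Nat.dvd_of_factorization_pos hd.ne'
  obtain ⟨K', hK's, hK'g⟩ := hM G n g a p hp hdvd F0 hF0c.ge hgood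
    (fun K hK L hL hKL => hF3 v v K (hF0s hK) L (hF0s hL) (Or.inr hKL))
  have hw : (DG G).down i v = tau G (a ^ p) := by
    rw [← hav]; exact t4 a i
  set w := (DG G).down i v with hwdef
  set E : (Ix G → Subgroup G) → Finset (Finset (Fin n)) :=
    fun x => if x = v then F v \ F0 else F x with hE
  have hEF : ∀ x, E x ⊆ F x := by
    intro x
    by_cases hx : x = v
    · subst hx; simp only [hE, if_true]; exact sdiff_subset
    · simp only [hE, if_neg hx]; exact Subset.rfl
  have hEd : ∀ x, ∀ L ∈ E x, Disjoint K' L := by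
    intro x L hL
    have hall : ∀ K ∈ F0, Disjoint K L := by
      intro K hK
      apply hF3 v x K (hF0s hK) L (hEF x hL)
      by_cases hx : x = v
      · right
        rintro rfl
        simp only [hE, if_pos hx, mem_sdiff] at hL
        exact hL.2 hK
      · left; exact fun h => hx h.symm
    refine disjoint_of_subset_left hK's ?_
    rw [disjoint_biUnion_left]
    exact hall
  have hEc : ∀ x, r x ≤ (E x).card := by
    intro x
    by_cases hx : x = v
    · subst hx
      simp only [hE, if_true]
      rw [card_sdiff_of_subset hF0s]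
      omega
    · simp only [hE, if_neg hx]
      have := hF1 x
      simpa [Pi.single_eq_of_ne hx] using this
  have hK'E : ∀ x, K' ∉ E x := by
    intro x hx
    have h1 := hEd x K' hx
    rw [disjoint_self_iff_empty] at h1
    exact hK'g.1.ne_empty h1
  refine ⟨fun x => if x = w then insert K' (E x) else E x, ?_, ?_, ?_⟩
  · intro x
    by_cases hx : x = w
    · subst hx
      simp only [if_true, Pi.add_apply, Pi.single_eq_same]
      rw [card_insert_of_notMem (hK'E w)]
      have := hEc w
      omega
    · simp only [if_neg hx, Pi.add_apply, Pi.single_eq_of_ne hx]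
      have := hEc x
      omega
  · intro x K hK
    by_cases hx : x = w
    · simp only [if_pos hx, mem_insert] at hK
      rcases hK with rfl | hK
      · exact ⟨a ^ p, by rw [hx, hw], hK'g⟩
      · exact hF2 x K (hEF x hK)
    · simp only [if_neg hx] at hK
      exact hF2 x K (hEF x hK)
  · intro x y K hK L hL hxy
    have hKc : (x = w ∧ K = K') ∨ K ∈ E x := by
      by_cases hx : x = w
      · simp only [if_pos hx, mem_insert] at hK
        rcases hK with hK | hK
        · exact Or.inl ⟨hx, hK⟩
        · exact Or.inr hK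
      · simp only [if_neg hx] at hK
        exact Or.inr hK
    have hLc : (y = w ∧ L = K') ∨ L ∈ E y := by
      by_cases hy : y = w
      · simp only [if_pos hy, mem_insert] at hL
        rcases hL with hL | hL
        · exact Or.inl ⟨hy, hL⟩
        · exact Or.inr hL
      · simp only [if_neg hy] at hL
        exact Or.inr hL
    rcases hKc with ⟨hx, hx'⟩ | hK'
    · rcases hLc with ⟨hy, hy'⟩ | hL'
      · exfalso
        rcases hxy with h | h
        · exact h (hx.trans hy.symm)
        · exact h (hx'.trans hy'.symm)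
      · rw [hx']; exact hEd y L hL'
    · rcases hLc with ⟨hy, hy'⟩ | hL'
      · rw [hy']; exact (hEd x K hK').symm
      · exact hF3 x y K (hEF x hK') L (hEF y hL') hxy

theorem realize (hT : TaskTau.{u}) (hM : TaskMove.{u}) : TaskRealize.{u} := by
  intro G _ _ _ n g s s' hs hR
  induction hR with
  | refl => exact start g s hs
  | step r v i _ _ hd ih => exact step1 hT hM g r v i hd ih

end Pool.Agent.W637.ZS
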